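import Mathlib
import Pool.Agent.X254.NF3

/-!
# A nearfield design which is not isomorphic to the Galois field design with the same parameters

There are a nearfield `N` of order `343 = 3 (mod 4)` and a subgroup `G` of order `9` of its
multiplicative group such that the 2-design `D(N, Φ, G)` is not isomorphic to `D(343, 9)`. In the
first design there are two blocks which meet in exactly three points, in the second one two
different blocks have at most two common points.
-/

set_option autoImplicit false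

namespace Pool.Agent.Results.MP_fd05bb_co.NearfieldDesign343

open Pool.Agent.X254.NF

/-- A nearfield: `(N, +)` is an abelian group, the nonzero elements form a group under the
multiplication, `x 0 = 0 = 0 x`, and `(x + y) z = x z + y z`. -/
class Nearfield (N : Type) extends AddCommGroup N, GroupWithZero N where
  /-- the right distributive law -/
  right_distributive : ∀ x y z : N, (x + y) * z = x * z + y * z

/-- The blocks `G s + a = {x s + a : x ∈ G}` for `s` in `S` and `a` in `N`. If `N` is a nearfield (for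
example a field) with `q = 3 (mod 4)` elements, `S` is the subgroup of order `(q - 1) / 2` of the group of
the nonzero elements and `G` is a subgroup of `S`, these are the blocks of `D(N, Φ, G)`. -/
def blocks {N : Type} [Add N] [Monoid N] (S G : Subgroup Nˣ) : Set (Set N) :=
  {B | ∃ s ∈ S, ∃ a : N, B = {y | ∃ x ∈ G, y = (x : N) * (s : N) + a}}

/-- Two families of blocks are isomorphic: some bijection of the point sets maps the blocks of the first
family onto the blocks of the second one. -/
def Isomorphic {N K : Type} (D : Set (Set N)) (E : Set (Set K)) : Prop :=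
  ∃ f : N ≃ K, (fun B : Set N => f '' B) '' D = E

instance fact_seven : Fact (Nat.Prime 7) := ⟨by norm_num⟩

/-- the field with 343 elements -/
abbrev F : Type := GaloisField 7 3

lemma cardF : Nat.card F = 343 := by
  rw [GaloisField.card 7 3 (by norm_num)]
  norm_num

/-- the points of the nearfield -/
def NF : Type := F

noncomputable instance : AddCommGroup NF := inferInstanceAs (AddCommGroup F)

/-- the element of the nearfield -/
def emb (x : F) : NF := x

open Classical in
/-- the inverse -/
noncomputable def iv (y : F) : F := if y = 0 then 0 else ni y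

lemma iv_zero : iv 0 = 0 := if_pos rfl

lemma iv_of {y : F} (hy : y ≠ 0) : iv y = ni y := if_neg hy

/-- the nearfield of order 343 -/
noncomputable instance inst : Nearfield NF :=
  { (inferInstance : AddCommGroup NF) with
    mul := fun x y => nm (K := F) x y
    one := (1 : F)
    inv := fun y => iv y
    mul_assoc := fun x y z => nm_assoc (K := F) cardF x y z
    one_mul := fun x => one_nm (K := F) cardF x
    mul_one := fun x => nm_one (K := F) cardF x
    zero_mul := fun x => zero_nm (K := F) cardF x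
    mul_zero := fun x => nm_zero (K := F) cardF x
    exists_pair_ne := ⟨(0 : F), (1 : F), (zero_ne_one : (0 : F) ≠ 1)⟩
    inv_zero := iv_zero
    mul_inv_cancel := fun y hy => by
      have hy' : (show F from y) ≠ 0 := hy
      have h1 := nm_ni (K := F) cardF hy'
      rw [← iv_of hy'] at h1
      exact h1
    right_distributive := fun x y z => nm_add (K := F) cardF x y z }

/-- the value of a unit in the field -/
def val (u : NFˣ) : F := (u : NF)

lemma val_ne (u : NFˣ) : val u ≠ 0 := u.ne_zero

lemma val_mul (u v : NFˣ) : val (u * v) = nm (val u) (val v) := rfl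

lemma val_one : val 1 = 1 := rfl

lemma val_inj {u v : NFˣ} (h : val u = val v) : u = v := Units.ext h

/-- a nonzero element as a unit -/
noncomputable def mk (x : F) (hx : x ≠ 0) : NFˣ :=
  ⟨x, ni (K := F) x, nm_ni (K := F) cardF hx, ni_nm (K := F) cardF hx⟩

lemma val_mk (x : F) (hx : x ≠ 0) : val (mk x hx) = x := rfl

/-- the subgroup of order 171 -/
noncomputable def S : Subgroup NFˣ where
  carrier := {u | val u ^ 171 = 1}
  one_mem' := by
    change val 1 ^ 171 = 1
    rw [val_one, one_pow]
  mul_mem' := by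
    intro u v hu hv
    change val (u * v) ^ 171 = 1
    rw [val_mul, nm_171 cardF (val_ne u)]
    have hu' : val u ^ 171 = 1 := hu
    have hv' : val v ^ 171 = 1 := hv
    rw [hu', hv', mul_one]
  inv_mem' := by
    intro u hu
    have hu' : val u ^ 171 = 1 := hu
    change val u⁻¹ ^ 171 = 1
    have h1 := nm_171 cardF (val_ne u⁻¹) (y := val u)
    rw [← val_mul, inv_mul_cancel, val_one, one_pow, hu', mul_one] at h1
    exact h1.symm

lemma mem_S (u : NFˣ) : u ∈ S ↔ val u ^ 171 = 1 := Iff.rfl

lemma cardNF : Nat.card NF = 343 := cardF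

lemma card_units : Nat.card NFˣ = 342 := by
  have h1 : Nat.card NFˣ = Nat.card Fˣ := by
    refine Nat.card_congr ⟨fun u => Units.mk0 (val u) (val_ne u), fun u => mk (u : F) u.ne_zero,
      fun u => val_inj rfl, fun u => Units.ext rfl⟩
  rw [h1, Nat.card_units, cardF]

lemma card_S : Nat.card S = 171 := by
  have h1 : S.index = 2 := by
    rw [Subgroup.index_eq_two_iff]
    have hm : (-1 : F) ≠ 0 := neg_ne_zero.2 one_ne_zero
    refine ⟨mk (-1) hm, fun b => ?_⟩
    have h2 : cl (-1 : F) = 0 := by
      rcases cl_cases cardF hm with ⟨-, e⟩ | ⟨e, -⟩ | ⟨e, -⟩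
      · exact e
      · exact absurd (by rw [← e]; norm_num) (four_ne_one cardF)
      · exact absurd (by rw [← e]; norm_num) (two_ne_one (K := F))
    have h3 : val (b * mk (-1) hm) = - val b := by
      rw [val_mul, val_mk]
      unfold nm
      rw [h2]
      simp
    have h7 := seven cardF
    have h4 : (-1 : F) ≠ 1 := by
      intro e
      exact two_ne cardF (by linear_combination -e)
    rw [mem_S, mem_S, h3]
    have h5 : (- val b) ^ 171 = - (val b ^ 171) := Odd.neg_pow (by decide) _
    rw [h5]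
    rcases p171 cardF (val_ne b) with e | e
    · rw [e]
      exact Or.inr ⟨rfl, h4⟩
    · rw [e]
      exact Or.inl ⟨neg_neg 1, h4⟩
  have h2 := Subgroup.card_mul_index S
  rw [h1, card_units] at h2
  omega

section cert

variable {ζ : F} (hz : ζ ^ 3 = 2)

include hz

/-- an element of the model -/
lemma ph_ne {x : M} (hx : x ≠ (0, 0, 0)) : ph ζ cardF x ≠ 0 := by
  intro h0
  rw [← ph_zero (ζ := ζ) cardF] at h0
  exact hx (ph_inj cardF hz h0)

end cert

/-- **Theorem.** There are a nearfield `N` with 343 elements, a subgroup `S` of order `171 = (343 - 1) / 2`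
of the group of its nonzero elements and a subgroup `G` of `S` of order `9` such that the design with
the blocks `G s + a` is not isomorphic to the design with the blocks `G' s + a`, where `G'` is a subgroup
of order `9` and `S'` is a subgroup of order `171` of the multiplicative group of any field with 343
elements. -/
theorem result :
    ∃ (N : Type) (_ : Nearfield N), Nat.card N = 343 ∧ ∃ S G : Subgroup Nˣ,
      Nat.card S = 171 ∧ G ≤ S ∧ Nat.card G = 9 ∧
      ∀ (K : Type) [Field K], Nat.card K = 343 → ∀ S' G' : Subgroup Kˣ,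
        Nat.card S' = 171 → Nat.card G' = 9 → ¬ Isomorphic (blocks S G) (blocks S' G') := by
  obtain ⟨ζ, hz⟩ := exists_zeta cardF
  -- the generator
  let x : NFˣ := mk (ph ζ cardF (0, 3, 1)) (ph_ne hz (by decide))
  let s : NFˣ := mk (ph ζ cardF (3, 3, 0)) (ph_ne hz (by decide))
  let a : NF := emb (ph ζ cardF (2, 1, 0))
  have hx1 : val x = ph ζ cardF (0, 3, 1) := rfl
  have hs1 : val s = ph ζ cardF (3, 3, 0) := rfl
  have st : ∀ (u : NFˣ) (v w : M), val u = ph ζ cardF v → nmM v (0, 3, 1) = w →
      val (u * x) = ph ζ cardF w := by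
    intro u v w h1 h2
    rw [val_mul, h1, hx1, nm_ph cardF hz, h2]
  have g1 : val (x ^ 1) = ph ζ cardF (0, 3, 1) := by rw [pow_one]; exact hx1
  have g2 : val (x ^ 2) = ph ζ cardF (1, 4, 1) := by
    rw [pow_succ]; exact st _ _ _ g1 (by decide +kernel)
  have g3 : val (x ^ 3) = ph ζ cardF (2, 0, 0) := by
    rw [pow_succ]; exact st _ _ _ g2 (by decide +kernel)
  have g4 : val (x ^ 4) = ph ζ cardF (0, 6, 2) := by
    rw [pow_succ]; exact st _ _ _ g3 (by decide +kernel)
  have g5 : val (x ^ 5) = ph ζ cardF (2, 1, 2) := by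
    rw [pow_succ]; exact st _ _ _ g4 (by decide +kernel)
  have g6 : val (x ^ 6) = ph ζ cardF (4, 0, 0) := by
    rw [pow_succ]; exact st _ _ _ g5 (by decide +kernel)
  have g7 : val (x ^ 7) = ph ζ cardF (0, 5, 4) := by
    rw [pow_succ]; exact st _ _ _ g6 (by decide +kernel)
  have g8 : val (x ^ 8) = ph ζ cardF (4, 2, 4) := by
    rw [pow_succ]; exact st _ _ _ g7 (by decide +kernel)
  have g9 : val (x ^ 9) = ph ζ cardF (1, 0, 0) := by
    rw [pow_succ]; exact st _ _ _ g8 (by decide +kernel)
  have ho : orderOf x = 9 := by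
    have hp : Fact (Nat.Prime 3) := ⟨by norm_num⟩
    have := orderOf_eq_prime_pow (x := x) (p := 3) (n := 1) ?_ ?_
    · rw [this]
      norm_num
    · intro h1
      rw [show 3 ^ 1 = 3 by norm_num] at h1
      rw [h1, val_one, ← ph_one (ζ := ζ) cardF] at g3
      exact absurd (ph_inj cardF hz g3) (by decide)
    · rw [show 3 ^ (1 + 1) = 9 by norm_num]
      apply val_inj
      rw [g9, ph_one, val_one]
  have p171 : ∀ v : M, ph ζ cardF v ^ 171 = io F cardF (nrM v ^ 3) := by
    intro v
    rw [show 171 = 57 * 3 by norm_num, pow_mul, ph_57 cardF hz, map_pow]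
  have mS : ∀ (u : NFˣ) (v : M), val u = ph ζ cardF v → nrM v ^ 3 = 1 → u ∈ S := by
    intro u v h1 h2
    rw [mem_S, h1, p171, h2, map_one]
  have xS : x ∈ S := mS x _ hx1 (by decide +kernel)
  have sS : s ∈ S := mS s _ hs1 (by decide +kernel)
  refine ⟨NF, inst, cardNF, S, Subgroup.zpowers x, card_S, ?_, ?_, ?_⟩
  · rw [Subgroup.zpowers_le]
    exact xS
  · rw [Nat.card_zpowers, ho]
  intro K _ hK S' G' hS' hG' ⟨f, hf⟩
  -- the two blocks
  let B1 : Set NF := {y | ∃ u ∈ Subgroup.zpowers x, y = (u : NF) * ((1 : NFˣ) : NF) + (0 : NF)}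
  let B2 : Set NF := {y | ∃ u ∈ Subgroup.zpowers x, y = (u : NF) * (s : NF) + a}
  have hB1 : B1 ∈ blocks S (Subgroup.zpowers x) := ⟨1, S.one_mem, 0, rfl⟩
  have hB2 : B2 ∈ blocks S (Subgroup.zpowers x) := ⟨s, sS, a, rfl⟩
  have m1 : ∀ (n : ℕ) (v : M), val (x ^ n) = ph ζ cardF v → emb (ph ζ cardF v) ∈ B1 := by
    intro n v h1
    refine ⟨x ^ n, Subgroup.pow_mem _ (Subgroup.mem_zpowers x) n, ?_⟩
    rw [← h1, add_zero, Units.val_one, mul_one]
    rfl
  have m2 : ∀ (n : ℕ) (v w : M), val (x ^ n) = ph ζ cardF v → nmM v (3, 3, 0) + (2, 1, 0) = w →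
      emb (ph ζ cardF w) ∈ B2 := by
    intro n v w h1 h2
    refine ⟨x ^ n, Subgroup.pow_mem _ (Subgroup.mem_zpowers x) n, ?_⟩
    have h3 : ((x ^ n : NFˣ) : NF) * (s : NF) = (nm (val (x ^ n)) (val s) : F) := rfl
    have h4 : (nm (val (x ^ n)) (val s) : F) = ph ζ cardF (nmM v (3, 3, 0)) := by
      rw [h1, hs1, nm_ph cardF hz]
    rw [h3, h4, ← h2, ← ph_add]
    rfl
  have p1 : emb (ph ζ cardF (1, 0, 0)) ∈ B1 := m1 9 _ g9
  have q1 : emb (ph ζ cardF (0, 6, 2)) ∈ B1 := m1 4 _ g4
  have r1 : emb (ph ζ cardF (0, 3, 1)) ∈ B1 := m1 1 _ g1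
  have p2 : emb (ph ζ cardF (1, 0, 0)) ∈ B2 := m2 3 _ _ g3 (by decide +kernel)
  have q2 : emb (ph ζ cardF (0, 6, 2)) ∈ B2 := m2 5 _ _ g5 (by decide +kernel)
  have r2 : emb (ph ζ cardF (0, 3, 1)) ∈ B2 := m2 7 _ _ g7 (by decide +kernel)
  have w2 : emb (ph ζ cardF (1, 0, 1)) ∈ B2 := m2 2 _ _ g2 (by decide +kernel)
  have w1 : emb (ph ζ cardF (1, 0, 1)) ∉ B1 := by
    rintro ⟨u, hu, h1⟩
    rw [add_zero, Units.val_one, mul_one] at h1
    have h2 : u ∈ S := (Subgroup.zpowers_le.2 xS) hu
    rw [mem_S] at h2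
    have h3 : val u = ph ζ cardF (1, 0, 1) := h1.symm
    rw [h3, p171] at h2
    have h4 : nrM (1, 0, 1) ^ 3 = 1 := by
      apply (io F cardF).injective
      rw [h2, map_one]
    exact absurd h4 (by decide +kernel)
  have hne : B1 ≠ B2 := fun e => w1 (e ▸ w2)
  have npq : emb (ph ζ cardF (1, 0, 0)) ≠ emb (ph ζ cardF (0, 6, 2)) := fun e =>
    absurd (ph_inj cardF hz e) (by decide)
  have npr : emb (ph ζ cardF (1, 0, 0)) ≠ emb (ph ζ cardF (0, 3, 1)) := fun e =>
    absurd (ph_inj cardF hz e) (by decide)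
  have nqr : emb (ph ζ cardF (0, 6, 2)) ≠ emb (ph ζ cardF (0, 3, 1)) := fun e =>
    absurd (ph_inj cardF hz e) (by decide)
  have c1 : f '' B1 ∈ blocks S' G' := by rw [← hf]; exact ⟨B1, hB1, rfl⟩
  have c2 : f '' B2 ∈ blocks S' G' := by rw [← hf]; exact ⟨B2, hB2, rfl⟩
  obtain ⟨s1, -, a1, e1⟩ := c1
  obtain ⟨s2, -, a2, e2⟩ := c2
  have k1 : ∀ y ∈ B1, ∃ z ∈ G', f y = (z : K) * (s1 : K) + a1 := by
    intro y hy
    have : f y ∈ f '' B1 := ⟨y, hy, rfl⟩
    rw [e1] at this
    exact this
  have k2 : ∀ y ∈ B2, ∃ z ∈ G', f y = (z : K) * (s2 : K) + a2 := by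
    intro y hy
    have : f y ∈ f '' B2 := ⟨y, hy, rfl⟩
    rw [e2] at this
    exact this
  have h5 := field_blocks hK G' hG' (f.injective.ne npq) (f.injective.ne npr) (f.injective.ne nqr)
    (k1 _ p1) (k1 _ q1) (k1 _ r1) (k2 _ p2) (k2 _ q2) (k2 _ r2)
  rw [← e1, ← e2] at h5
  exact hne (f.injective.image_injective h5)

end Pool.Agent.Results.MP_fd05bb_co.NearfieldDesign343
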